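import Pool.Agent.Helper3.TG.GoalsTr
import Pool.Agent.Helper16.UN.HVB

/-!
Goal HVT of project TG: the form of `ThP`.
-/

set_option autoImplicit false
set_option linter.unusedSectionVars false
set_option linter.unusedSimpArgs false

namespace Pool.Agent.Helper87.TG.HVT

open MvPolynomial Pool.Agent.Helper3.TG
open Pool.Agent.Helper5.UN (hv)

noncomputable section

variable {K : Type} [Field K] {σ : Type} [Fintype σ] [DecidableEq σ]

/-- the monomials -/
def mo (K : Type) [Field K] {σ : Type} (a b c : σ) (i j l : ℕ) : MvPolynomial σ K :=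
  X a ^ i * X b ^ j * X c ^ l

theorem mo_eq (a b c : σ) (i j l : ℕ) : mo K a b c i j l =
    monomial (Finsupp.single a i + Finsupp.single b j + Finsupp.single c l) 1 := by
  unfold mo
  rw [X_pow_eq_monomial, X_pow_eq_monomial, X_pow_eq_monomial, monomial_mul, monomial_mul, mul_one,
    mul_one]

/-- the exponents -/
abbrev EE (a b c : σ) : σ → ℕ := fun i => if i = a ∨ i = b ∨ i = c then 2 else 0

theorem single_le (a b c : σ) (hab : a ≠ b) (hbc : b ≠ c) (hac : a ≠ c) (i j l : ℕ) (hi : i ≤ 2)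
    (hj : j ≤ 2) (hl : l ≤ 2) (v : σ) :
    (Finsupp.single a i + Finsupp.single b j + Finsupp.single c l) v ≤ EE a b c v := by
  simp only [Finsupp.add_apply, Finsupp.single_apply, EE]
  by_cases h1 : v = a
  · subst h1
    simp [Ne.symm hab, Ne.symm hac, hi]
  · by_cases h2 : v = b
    · subst h2
      simp [hab, Ne.symm hbc, hj]
    · by_cases h3 : v = c
      · subst h3
        simp [hac, hbc, hl]
      · simp [h1, h2, h3, Ne.symm h1, Ne.symm h2, Ne.symm h3]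

theorem deg_mo (a b c : σ) (hab : a ≠ b) (hbc : b ≠ c) (hac : a ≠ c) (i j l : ℕ) (hi : i ≤ 2)
    (hj : j ≤ 2) (hl : l ≤ 2) (k : K) (v : σ) :
    degreeOf v (C k * mo K a b c i j l) ≤ EE a b c v := by
  refine (degreeOf_C_mul_le _ _ _).trans ?_
  rw [mo_eq, degreeOf_monomial_eq _ _ one_ne_zero]
  exact single_le a b c hab hbc hac i j l hi hj hl v

theorem hv_mo {Ω : Type} [Field Ω] (φ : K →+* Ω) (a b c : σ) (hab : a ≠ b) (hbc : b ≠ c)
    (hac : a ≠ c) (i j l : ℕ) (y : σ → Fin 2 → Ω) :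
    hv φ (EE a b c) (mo K a b c i j l) y = (y a 0 ^ i * y a 1 ^ (2 - i)) *
      (y b 0 ^ j * y b 1 ^ (2 - j)) * (y c 0 ^ l * y c 1 ^ (2 - l)) := by
  classical
  have ea : EE a b c a = 2 := by simp [EE]
  have eb : EE a b c b = 2 := by simp [EE]
  have ec : EE a b c c = 2 := by simp [EE]
  unfold hv
  rw [mo_eq, support_monomial, if_neg one_ne_zero, Finset.sum_singleton, coeff_monomial,
    if_pos rfl, map_one, one_mul]
  rw [← Finset.prod_subset (Finset.subset_univ {a, b, c})]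
  · rw [Finset.prod_insert (by simp [hab, hac]), Finset.prod_insert (by simp [hbc]),
      Finset.prod_singleton, mul_assoc]
    simp [Finsupp.single_apply, hab, hbc, hac, Ne.symm hab, Ne.symm hbc, Ne.symm hac, ea, eb, ec,
      mul_assoc]
  · intro v _ hv
    simp only [Finset.mem_insert, Finset.mem_singleton, not_or] at hv
    simp [Finsupp.single_apply, hv.1, hv.2.1, hv.2.2, Ne.symm hv.1, Ne.symm hv.2.1,
      Ne.symm hv.2.2]

theorem expand {R : Type} [CommRing R] (x y t b2 b4 b6 b8 : R) :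
    x ^ 2 * y ^ 2 + y ^ 2 * t ^ 2 + t ^ 2 * x ^ 2 - 2 * (x * y * t) * (x + y + t) -
      b2 * (x * y * t) - b4 * (x * y + y * t + t * x) - b6 * (x + y + t) - b8 =
    1 * (x ^ 2 * y ^ 2 * t ^ 0) + 1 * (x ^ 0 * y ^ 2 * t ^ 2) + 1 * (x ^ 2 * y ^ 0 * t ^ 2) +
    (-2) * (x ^ 2 * y ^ 1 * t ^ 1) + (-2) * (x ^ 1 * y ^ 2 * t ^ 1) +
    (-2) * (x ^ 1 * y ^ 1 * t ^ 2) +
    (-b2) * (x ^ 1 * y ^ 1 * t ^ 1) + (-b4) * (x ^ 1 * y ^ 1 * t ^ 0) +
    (-b4) * (x ^ 0 * y ^ 1 * t ^ 1) +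
    (-b4) * (x ^ 1 * y ^ 0 * t ^ 1) + (-b6) * (x ^ 1 * y ^ 0 * t ^ 0) +
    (-b6) * (x ^ 0 * y ^ 1 * t ^ 0) +
    (-b6) * (x ^ 0 * y ^ 0 * t ^ 1) + (-b8) * (x ^ 0 * y ^ 0 * t ^ 0) := by
  ring

theorem ThP_eq (w : WeierstrassCurve.Affine K) (a b c : σ) : ThP w a b c =
    C 1 * mo K a b c 2 2 0 + C 1 * mo K a b c 0 2 2 + C 1 * mo K a b c 2 0 2 +
    C (-2) * mo K a b c 2 1 1 + C (-2) * mo K a b c 1 2 1 + C (-2) * mo K a b c 1 1 2 +
    C (-w.b₂) * mo K a b c 1 1 1 + C (-w.b₄) * mo K a b c 1 1 0 + C (-w.b₄) * mo K a b c 0 1 1 +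
    C (-w.b₄) * mo K a b c 1 0 1 + C (-w.b₆) * mo K a b c 1 0 0 + C (-w.b₆) * mo K a b c 0 1 0 +
    C (-w.b₆) * mo K a b c 0 0 1 + C (-w.b₈) * mo K a b c 0 0 0 := by
  unfold ThP TH mo
  simp only [WeierstrassCurve.map_b₂, WeierstrassCurve.map_b₄, WeierstrassCurve.map_b₆,
    WeierstrassCurve.map_b₈, map_neg, map_ofNat, map_one]
  exact expand _ _ _ _ _ _ _

theorem t : Pool.Agent.Helper3.TG.HVT := by
  intro K _ w σ _ _ a b c hab hbc hac
  refine ⟨?_, ?_⟩
  · intro v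
    have hd := fun (i j l : ℕ) (hi : i ≤ 2) (hj : j ≤ 2) (hl : l ≤ 2) (k : K) =>
      deg_mo a b c hab hbc hac i j l hi hj hl k v
    rw [ThP_eq]
    have add : ∀ f g : MvPolynomial σ K, degreeOf v f ≤ EE a b c v → degreeOf v g ≤ EE a b c v →
        degreeOf v (f + g) ≤ EE a b c v := fun f g hf hg =>
      (degreeOf_add_le v f g).trans (max_le hf hg)
    change _ ≤ EE a b c v
    iterate 13 refine add _ _ ?_ (hd _ _ _ (by norm_num) (by norm_num) (by norm_num) _)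
    exact hd _ _ _ (by norm_num) (by norm_num) (by norm_num) _
  · intro Ω _ _ y
    have hadd := Pool.Agent.Helper16.UN.gHVB.1 K Ω (algebraMap K Ω) σ (EE a b c)
    have hC := Pool.Agent.Helper16.UN.gHVB.2.1 K Ω (algebraMap K Ω) σ (EE a b c)
    have hm := fun (i j l : ℕ) => hv_mo (algebraMap K Ω) a b c hab hbc hac i j l y
    change hv (algebraMap K Ω) (EE a b c) (ThP w a b c) y = _
    rw [ThP_eq]
    simp only [hadd, hC, hm]
    unfold THh
    simp only [map_neg, map_ofNat, map_one, WeierstrassCurve.map_b₂, WeierstrassCurve.map_b₄, WeierstrassCurve.map_b₆,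
      WeierstrassCurve.map_b₈]
    norm_num
    ring

end

end Pool.Agent.Helper87.TG.HVT
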